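import Mathlib
import Pool.Agent.Lib.MP_74dbbd_co.Main

/-!
The shifted Heller constants satisfy `h_s^δ(m) ≤ h_s(m) ≤ m^2 + m`.
-/

namespace Pool.Agent.Results.MP_74dbbd_co.ShiftedHeller

/-- `M` is totally 1-submodular: all its square minors are at most 1 in absolute value. -/
def TotallyOneSubmodular {m n : ℕ} (M : Matrix (Fin m) (Fin n) ℝ) : Prop :=
  ∀ (k : ℕ) (r : Fin k → Fin m) (c : Fin k → Fin n), StrictMono r → StrictMono c →
    |(M.submatrix r c).det| ≤ 1

/-- The matrix `t + A`, with the columns `t + A_j`. -/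
def shift {m n : ℕ} (t : Fin m → ℝ) (A : Matrix (Fin m) (Fin n) ℤ) :
    Matrix (Fin m) (Fin n) ℝ :=
  Matrix.of fun i j => t i + (A i j : ℝ)

/-- There is an `m × n` matrix `A` with entries in `{-1, 0, 1}` and pairwise distinct columns such
that `t + A` is totally 1-submodular. -/
def Admits (m n : ℕ) (t : Fin m → ℝ) : Prop :=
  ∃ A : Matrix (Fin m) (Fin n) ℤ, (∀ i j, A i j = -1 ∨ A i j = 0 ∨ A i j = 1) ∧
    (∀ j j', (∀ i, A i j = A i j') → j = j') ∧ TotallyOneSubmodular (shift t A)

/-- The shifted Heller constant `h_s(m)`. -/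
noncomputable def shiftedHeller (m : ℕ) : ℕ :=
  sSup {n | ∃ t : Fin m → ℝ, (∀ i, 0 ≤ t i ∧ t i < 1) ∧ t ≠ 0 ∧ Admits m n t}

/-- The refined shifted Heller constant `h_s^δ(m)`. -/
noncomputable def refinedShiftedHeller (δ m : ℕ) : ℕ :=
  sSup {n | ∃ t : Fin m → ℝ, (∀ i, 0 ≤ t i ∧ t i < 1) ∧ (∀ i, ∃ a : ℤ, t i = (a : ℝ) / δ) ∧
    t ≠ 0 ∧ Admits m n t}

open Pool.Agent.Lib.MP_74dbbd_co in
theorem bound {m n : ℕ} {t : Fin m → ℝ} (ht : ∀ i, 0 ≤ t i ∧ t i < 1) (h0 : t ≠ 0)
    (h : Admits m n t) : n ≤ m ^ 2 + m := by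
  classical
  obtain ⟨A, -, hinj, hts⟩ := h
  set S : Finset (Fin m → ℤ) := Finset.univ.image fun j i => A i j with hS
  have hcard : S.card = n := by
    rw [hS, Finset.card_image_of_injective, Finset.card_univ, Fintype.card_fin]
    intro j j' hjj
    exact hinj j j' fun i => congrFun hjj i
  have hTS : TS t S := by
    intro k r a ha
    have h1 : ∀ b, ∃ c : Fin n, (fun i => A i c) = a b := fun b => by
      obtain ⟨c, -, hc⟩ := Finset.mem_image.1 (ha b)
      exact ⟨c, hc⟩
    choose c hc using h1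
    have h2 : (Matrix.of fun x y => t (r x) + (a y (r x) : ℝ)) = (shift t A).submatrix r c := by
      ext x y
      simp only [Matrix.of_apply, Matrix.submatrix_apply, shift]
      rw [← hc y]
    rw [h2]
    by_cases hr : Function.Injective r
    · by_cases hc' : Function.Injective c
      · have h3 := hts k (r ∘ Tuple.sort r) (c ∘ Tuple.sort c)
          ((Tuple.monotone_sort r).strictMono_of_injective
            (hr.comp (Tuple.sort r).injective))
          ((Tuple.monotone_sort c).strictMono_of_injective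
            (hc'.comp (Tuple.sort c).injective))
        have h4 : (shift t A).submatrix (r ∘ Tuple.sort r) (c ∘ Tuple.sort c) =
            ((shift t A).submatrix r c).submatrix (Tuple.sort r) (Tuple.sort c) := rfl
        rw [h4, Matrix.abs_det_submatrix_equiv_equiv] at h3
        exact h3
      · rw [Function.Injective] at hc'
        push Not at hc'
        obtain ⟨b, b', hbb, hne⟩ := hc'
        rw [Matrix.det_zero_of_column_eq hne (fun x => by
          simp only [Matrix.submatrix_apply]; rw [hbb])]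
        simp
    · rw [Function.Injective] at hr
      push Not at hr
      obtain ⟨b, b', hbb, hne⟩ := hr
      rw [Matrix.det_zero_of_row_eq hne (by
        funext x
        simp only [Matrix.submatrix_apply]; rw [hbb])]
      simp
  have := (main_bound m (Fin m) (Fintype.card_fin m) t (fun i => (ht i).1) (fun i => (ht i).2)
    S hTS).2 (by
      by_contra hcon
      push Not at hcon
      exact h0 (funext hcon))
  rwa [hcard] at this

/-- For all `m ≥ 1`: every matrix with entries in `{-1, 0, 1}` and `n` distinct columns, such that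
`t + A` is totally 1-submodular for some nonzero `t ∈ [0,1)^m`, has `n ≤ m^2 + m`; hence
`h_s(m) ≤ m^2 + m` and `h_s^δ(m) ≤ m^2 + m` for all `δ ≥ 2`. -/
theorem result (m : ℕ) (_ : 1 ≤ m) :
    (∀ (n : ℕ) (t : Fin m → ℝ), (∀ i, 0 ≤ t i ∧ t i < 1) → t ≠ 0 → Admits m n t →
      n ≤ m ^ 2 + m) ∧
    shiftedHeller m ≤ m ^ 2 + m ∧ ∀ δ : ℕ, 2 ≤ δ → refinedShiftedHeller δ m ≤ m ^ 2 + m := by
  refine ⟨fun n t ht h0 h => bound ht h0 h, ?_, fun δ _ => ?_⟩
  · refine csSup_le' ?_
    rintro n ⟨t, ht, h0, h⟩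
    exact bound ht h0 h
  · refine csSup_le' ?_
    rintro n ⟨t, ht, _, h0, h⟩
    exact bound ht h0 h

end Pool.Agent.Results.MP_74dbbd_co.ShiftedHeller
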